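import Pool.Agent.Run7.h238.X.BoxX
import Pool.Agent.Run7.h238.Y.LAY

/-!
# The count in a box: the system with one more unknown
-/

set_option autoImplicit false
set_option linter.unusedVariables false

open scoped Classical

namespace Run7.h238.Y

open Finset
open Pool.Agent.Y703.CX
open Pool.Agent.Y703.XK (c9)
open Pool.Agent.Y911.CX (lb HB_sub)
open Run7.h238.X (F3)

/-- the system attached to the primes `p i` and the small primes `S₀` is good -/
def GdP {ι : Type} [Fintype ι] (g h : ℕ → F3) (kq : F3) (sU : ℕ → F3) (sI : ι → F3)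
    (S₀ : Finset ℕ) (p : ι → ℕ) : Prop :=
  GdYA (fun u : S₀ => sU u) sI (fun u : S₀ => g u) (fun u : S₀ => h u) (fun i => g (p i))
    (fun i => h (p i)) kq (fun u v : S₀ => lam u v)
    (fun (u : S₀) i => lam u (p i)) (fun i (u : S₀) => lam (p i) u) (fun k l => lam (p k) (p l))

/-- the labels are not degenerate -/
def Ny (g h : ℕ → F3) (V : ℕ) (S₀ S₁ : Finset ℕ) : Prop :=
  (∀ (v : S₀ → F3) (c : F3), ¬ (v = 0 ∧ c = 0) →
    ∃ x ∈ S₁, ∑ u : S₀, v u * lam u x + c * h x ≠ 0) ∧
  (∀ (w : S₀ → F3) (c : F3), ¬ (w = 0 ∧ c = 0) →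
    ∃ x ∈ S₁, ∑ u : S₀, w u * lam x u + c * g x ≠ 0) ∧
  4 * S₀.card + 5 + 2 * V ≤ (S₁.filter fun x => g x ≠ 0).card

/-- the same, for labels -/
def LNy {ι : Type} [Fintype ι] (V : ℕ) (S₀ : Finset ℕ)
    (β : ι → (((S₀ → F3) × (S₀ → F3)) × F3) × F3) : Prop :=
  (∀ (v : S₀ → F3) (c : F3), ¬ (v = 0 ∧ c = 0) →
    ∃ i, ∑ u : S₀, v u * (β i).1.1.1 u + c * (β i).2 ≠ 0) ∧
  (∀ (w : S₀ → F3) (c : F3), ¬ (w = 0 ∧ c = 0) →
    ∃ i, ∑ u : S₀, w u * (β i).1.1.2 u + c * (β i).1.2 ≠ 0) ∧
  4 * S₀.card + 5 + 2 * V ≤ (univ.filter fun i => (β i).1.2 ≠ 0).card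

/-- the label -/
noncomputable def ly (g h : ℕ → F3) (S₀ : Finset ℕ) (x : ℕ) :
    (((S₀ → F3) × (S₀ → F3)) × F3) × F3 :=
  ((lb S₀ x, g x), h x)

section
variable {ι : Type} [Fintype ι] {g h sU : ℕ → F3} {kq : F3} {V : ℕ} {S₀ : Finset ℕ} {p : ι → ℕ}

theorem ny_iff (hp : Function.Injective p) :
    Ny g h V S₀ (univ.image p) ↔ LNy V S₀ (fun i => ly g h S₀ (p i)) := by
  unfold Ny LNy
  refine and_congr ?_ (and_congr ?_ ?_)
  · refine forall_congr' fun v => forall_congr' fun c => imp_congr_right fun _ => ?_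
    constructor
    · rintro ⟨x, hx, h⟩
      obtain ⟨i, -, rfl⟩ := mem_image.1 hx
      exact ⟨i, h⟩
    · rintro ⟨i, h⟩
      exact ⟨p i, mem_image_of_mem _ (mem_univ _), h⟩
  · refine forall_congr' fun v => forall_congr' fun c => imp_congr_right fun _ => ?_
    constructor
    · rintro ⟨x, hx, h⟩
      obtain ⟨i, -, rfl⟩ := mem_image.1 hx
      exact ⟨i, h⟩
    · rintro ⟨i, h⟩
      exact ⟨p i, mem_image_of_mem _ (mem_univ _), h⟩
  · have : ((univ.image p).filter fun x => g x ≠ 0).card =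
        (univ.filter fun i => (ly g h S₀ (p i)).1.2 ≠ 0).card := by
      rw [filter_image, card_image_of_injective _ hp]
      rfl
    rw [this]

/-- only the values off the diagonal matter -/
theorem gdP_iff (sI : ι → F3) :
    GdP g h kq sU sI S₀ p ↔ GdYA (fun u : S₀ => sU u) sI (fun u : S₀ => g u) (fun u : S₀ => h u)
      (fun i => (ly g h S₀ (p i)).1.2) (fun i => (ly g h S₀ (p i)).2) kq
      (fun u v : S₀ => lam u v) (fun (u : S₀) i => (ly g h S₀ (p i)).1.1.1 u)
      (fun i (u : S₀) => (ly g h S₀ (p i)).1.1.2 u)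
      (Pool.Agent.Y703.CX.ext fun e : prs (univ : Finset ι) => lam (p e.1.1) (p e.1.2)) := by
  have key : ∀ k l, k ≠ l → Pool.Agent.Y703.CX.ext
      (fun e : prs (univ : Finset ι) => lam (p e.1.1) (p e.1.2)) k l = lam (p k) (p l) := by
    intro k l hkl
    have hm : (k, l) ∈ prs (univ : Finset ι) := by
      unfold prs
      rw [Finset.mem_filter]
      exact ⟨Finset.mem_univ _, Finset.mem_univ _, fun h => hkl h.symm⟩
    unfold Pool.Agent.Y703.CX.ext
    rw [dif_pos hm]
  unfold GdP GdYA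
  have h1 : ∀ (x y : ι → F3) (yu : S₀ → F3) (z : F3) (k : ι),
      E1 (fun u : S₀ => sU u) sI (fun i => g (p i)) (fun i => h (p i))
        (fun (u : S₀) i => lam u (p i))
        (fun i (u : S₀) => lam (p i) u) (fun k l => lam (p k) (p l)) x y yu z k =
      E1 (fun u : S₀ => sU u) sI (fun i => (ly g h S₀ (p i)).1.2) (fun i => (ly g h S₀ (p i)).2)
        (fun (u : S₀) i => (ly g h S₀ (p i)).1.1.1 u)
        (fun i (u : S₀) => (ly g h S₀ (p i)).1.1.2 u)
        (Pool.Agent.Y703.CX.ext fun e : prs (univ : Finset ι) => lam (p e.1.1) (p e.1.2))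
        x y yu z k := by
    intro x y yu z k
    unfold E1
    congr 3
    refine sum_congr rfl fun l _ => ?_
    by_cases h : k = l
    · subst h
      ring
    · rw [key k l h, key l k (Ne.symm h)]
  have h2 : ∀ (x y : ι → F3) (xu : S₀ → F3) (k : ι),
      E2 (fun u : S₀ => sU u) sI (fun i => g (p i)) (fun i => h (p i))
        (fun (u : S₀) i => lam u (p i))
        (fun k l => lam (p k) (p l)) x y xu k =
      E2 (fun u : S₀ => sU u) sI (fun i => (ly g h S₀ (p i)).1.2) (fun i => (ly g h S₀ (p i)).2)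
        (fun (u : S₀) i => (ly g h S₀ (p i)).1.1.1 u)
        (Pool.Agent.Y703.CX.ext fun e : prs (univ : Finset ι) => lam (p e.1.1) (p e.1.2))
        x y xu k := by
    intro x y yu k
    unfold E2
    congr 3
    refine sum_congr rfl fun l _ => ?_
    by_cases h : k = l
    · subst h
      ring
    · rw [key l k (Ne.symm h)]
  simp only [h1, h2]
  rfl

end

/-- **The count in a box.** -/
theorem boxY (hEQ : S_EQ) (g h : ℕ → F3) (kq : F3) (sU : ℕ → F3) (ι : Type) [Fintype ι]
    (sI : ι → F3)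
    (C : ι → Finset ℕ) (X : ι → ℕ) (κ : ℝ) (S₀ : Finset ℕ) (hκ : 0 ≤ κ)
    (hCX : ∀ i, (C i).card ≤ X i) (hHB : HB univ C X κ)
    (hsU : ∀ u ∈ S₀, sU u ≠ 0) (hsI : ∀ i, sI i ≠ 0)
    (hdis : ∀ i l, i ≠ l → Disjoint (C i) (C l)) (V : ℕ) :
    |(((Fintype.piFinset C).filter fun p => Ny g h V S₀ (univ.image p) ∧
        GdP g h kq sU sI S₀ p).card : ℝ) -
      c9 * (((Fintype.piFinset C).filter fun p => Ny g h V S₀ (univ.image p)).card : ℝ)| ≤
    ((2 * Fintype.card ι + 2) * (1 / 3 : ℝ) ^ V) *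
      (((Fintype.piFinset C).filter fun p => Ny g h V S₀ (univ.image p)).card : ℝ) +
    3 ^ ((2 * S₀.card + 2) * Fintype.card ι + (prs (univ : Finset ι)).card) *
      (κ * ∏ j, (X j : ℝ)) := by
  set cc : ℝ := (2 * Fintype.card ι + 2) * (1 / 3 : ℝ) ^ V with hcc
  set R : ℝ := 3 ^ (prs (univ : Finset ι)).card * (κ * ∏ j, (X j : ℝ)) with hR
  have hcc0 : 0 ≤ cc := by positivity
  have hR0 : 0 ≤ R := mul_nonneg (by positivity)
    (mul_nonneg hκ (Finset.prod_nonneg fun j _ => by positivity))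
  have hinj : ∀ p ∈ Fintype.piFinset C, Function.Injective p := by
    intro p hp i j hij
    rw [Fintype.mem_piFinset] at hp
    by_contra hne
    have h1 := Finset.disjoint_left.1 (hdis i j hne) (hp i)
    rw [hij] at h1
    exact h1 (hp j)
  -- the part with given labels
  have h1 : ∀ β : ι → (((S₀ → F3) × (S₀ → F3)) × F3) × F3, LNy V S₀ β →
      |(((Fintype.piFinset C).filter fun p => (fun i => ly g h S₀ (p i)) = β ∧
          GdP g h kq sU sI S₀ p).card : ℝ) -
        c9 * (((Fintype.piFinset C).filter fun p => (fun i => ly g h S₀ (p i)) = β).card : ℝ)| ≤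
      cc * (((Fintype.piFinset C).filter fun p => (fun i => ly g h S₀ (p i)) = β).card : ℝ) +
        R := by
    intro β hβ
    set C' : ι → Finset ℕ := fun i => (C i).filter fun q => ly g h S₀ q = β i with hC'
    have hpi : (Fintype.piFinset C).filter (fun p => (fun i => ly g h S₀ (p i)) = β) =
        Fintype.piFinset C' := by
      ext p
      simp only [Finset.mem_filter, Fintype.mem_piFinset, hC']
      constructor
      · rintro ⟨h2, h3⟩ i
        exact ⟨h2 i, congrFun h3 i⟩
      · intro h2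
        exact ⟨fun i => (h2 i).1, funext fun i => (h2 i).2⟩
    have h2 := lay (fun u : S₀ => sU u) sI (fun u : S₀ => g u) (fun u : S₀ => h u)
      (fun i => (β i).1.2) (fun i => (β i).2) kq
      (fun u v : S₀ => lam u v) (fun (u : S₀) i => (β i).1.1.1 u)
      (fun i (u : S₀) => (β i).1.1.2 u)
      (fun u => hsU u u.2) hsI
      (by
        intro v c hv
        by_contra hne
        obtain ⟨i, hi⟩ := hβ.1 v c hne
        exact hi (hv i))
      (by
        intro v c hv
        by_contra hne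
        obtain ⟨i, hi⟩ := hβ.2.1 v c hne
        exact hi (hv i))
      V (by
        rw [Fintype.card_coe]
        exact hβ.2.2)
    set Q : (prs (univ : Finset ι) → ZMod 3) → Prop := fun α =>
      GdYA (fun u : S₀ => sU u) sI (fun u : S₀ => g u) (fun u : S₀ => h u)
        (fun i => (β i).1.2) (fun i => (β i).2) kq
        (fun u v : S₀ => lam u v) (fun (u : S₀) i => (β i).1.1.1 u)
        (fun i (u : S₀) => (β i).1.1.2 u)
        (Pool.Agent.Y703.CX.ext α) with hQ
    have h3 := hEQ ι univ C' X κ hκ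
      (fun i => (Finset.card_le_card (Finset.filter_subset _ _)).trans (hCX i))
      (HB_sub hHB fun i q => ly g h S₀ q = β i) Q
    have h4 : ((Fintype.piFinset C).filter fun p => (fun i => ly g h S₀ (p i)) = β ∧
        GdP g h kq sU sI S₀ p) = ((Fintype.piFinset C').filter fun p =>
          Q fun e => lam (p e.1.1) (p e.1.2)) := by
      rw [← hpi, Finset.filter_filter]
      refine Finset.filter_congr fun p hp => ?_
      refine and_congr_right fun hl => ?_
      rw [gdP_iff]
      subst hl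
      exact Iff.rfl
    have h5 : (((Fintype.piFinset C').card : ℕ) : ℝ) = ∏ j, ((C' j).card : ℝ) := by
      rw [Fintype.card_piFinset]
      push_cast
      rfl
    rw [h4, hpi, h5]
    set n : ℝ := (((Fintype.piFinset C').filter fun p =>
          Q fun e => lam (p e.1.1) (p e.1.2)).card : ℝ) with hn
    set q : ℝ := ((univ.filter Q).card : ℝ) / 3 ^ (prs (univ : Finset ι)).card with hq
    set P : ℝ := ∏ j, ((C' j).card : ℝ) with hP
    have hP0 : 0 ≤ P := Finset.prod_nonneg fun j _ => by positivity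
    have h30 : (0 : ℝ) < 3 ^ (prs (univ : Finset ι)).card := by positivity
    have h2' : |q - c9| ≤ cc := by
      have e : q - c9 = (((univ.filter Q).card : ℝ) - c9 * 3 ^ (prs (univ : Finset ι)).card) /
          3 ^ (prs (univ : Finset ι)).card := by
        rw [hq]
        field_simp
      rw [e, abs_div, abs_of_pos h30, div_le_iff₀ h30]
      exact h2
    have h6 : |n - c9 * P| ≤ |n - q * P| + |q - c9| * P := by
      have h7 : n - c9 * P = (n - q * P) + (q - c9) * P := by ring
      have h8 : |(q - c9) * P| = |q - c9| * P := by rw [abs_mul, abs_of_nonneg hP0]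
      rw [h7, ← h8]
      exact abs_add_le _ _
    have h7 : |q - c9| * P ≤ cc * P := mul_le_mul_of_nonneg_right h2' hP0
    have h8 : |n - q * P| ≤ R := h3
    linarith
  -- sum over the labels
  set LL := univ.filter (fun β : ι → (((S₀ → F3) × (S₀ → F3)) × F3) × F3 => LNy V S₀ β) with hLL
  have hfib : ∀ T : (ι → ℕ) → Prop,
      (((Fintype.piFinset C).filter fun p => Ny g h V S₀ (univ.image p) ∧ T p).card : ℝ) =
      ∑ β ∈ LL, (((Fintype.piFinset C).filter fun p =>
        (fun i => ly g h S₀ (p i)) = β ∧ T p).card : ℝ) := by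
    intro T
    rw [Finset.card_eq_sum_card_fiberwise (f := fun (p : ι → ℕ) (i : ι) => ly g h S₀ (p i))
      (t := LL) (by
        intro p hp
        rw [Finset.mem_coe, Finset.mem_filter] at hp
        rw [Finset.mem_coe, hLL, Finset.mem_filter]
        exact ⟨Finset.mem_univ _, (ny_iff (hinj p hp.1)).1 hp.2.1⟩)]
    push_cast
    refine Finset.sum_congr rfl fun β hβ => ?_
    rw [hLL, Finset.mem_filter] at hβ
    congr 2
    ext p
    simp only [Finset.mem_filter]
    constructor
    · rintro ⟨⟨h3, h4, h4'⟩, h5⟩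
      exact ⟨h3, h5, h4'⟩
    · rintro ⟨h3, h4, h5⟩
      refine ⟨⟨h3, ?_, h5⟩, h4⟩
      rw [ny_iff (hinj p h3), h4]
      exact hβ.2
  have hf1 := hfib fun p => GdP g h kq sU sI S₀ p
  have hf2 := hfib fun _ => True
  simp only [and_true] at hf2
  rw [hf1, hf2, Finset.mul_sum, ← Finset.sum_sub_distrib]
  refine (Finset.abs_sum_le_sum_abs _ _).trans ?_
  refine (Finset.sum_le_sum fun β hβ => h1 β (Finset.mem_filter.1 hβ).2).trans ?_
  rw [Finset.sum_add_distrib, ← Finset.mul_sum, Finset.sum_const, nsmul_eq_mul]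
  have h5 : ((LL.card : ℕ) : ℝ) ≤ 3 ^ ((2 * S₀.card + 2) * Fintype.card ι) := by
    have h6 : LL.card ≤ Fintype.card (ι → (((S₀ → F3) × (S₀ → F3)) × F3) × F3) :=
      Finset.card_le_univ _
    rw [Fintype.card_fun, Fintype.card_prod, Fintype.card_prod, Fintype.card_prod,
      Fintype.card_fun, ZMod.card,
      Fintype.card_coe, ← pow_add, ← two_mul, ← pow_succ, ← pow_succ, ← pow_mul] at h6
    exact_mod_cast h6
  have h6 := mul_le_mul_of_nonneg_right h5 hR0
  rw [pow_add, mul_assoc]
  linarith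

end Run7.h238.Y
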