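import Pool.Agent.Run7.h238.R.ECr
import Pool.Agent.Run7.h238.Y.KeyY

/-!
# The kernel condition for `ω ∏ π_j^(e_j)` with the inert prime `q` in terms of the system
-/

set_option autoImplicit false
set_option linter.unusedVariables false

open scoped Classical

namespace Run7.h238.Y

open Finset
open Pool.Agent.Y692.QS
open Pool.Agent.Y703.CX
open Pool.Agent.Y715.T.Rec (cs)
open Pool.Agent.Y715.T.RecG (Pq cs_mul cs_congr cs_zero_iff cs_neg)
open Pool.Agent.Y703.CT (Dt pD Ker)
open Pool.Agent.N883.FF (nq KerB pB)
open Run7.h238.X (F3 Jx sg sg_ne be px exx dt_px pD_px pq_px nd_px nr_px cs_self symb2 xt xt_apply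
  eqA eqN nr_negq)
open Run7.h238.R (hn)

variable {q : ℕ} {S A : Finset ℕ}

theorem nq_px (hS : ∀ p ∈ S, p.Prime ∧ p % 3 = 1) (b : Bool) (p : {p // p ∈ S}) :
    nq (px q S (some (b, p))) = hn p := by
  unfold nq hn
  rw [nr_px hS]
  have h := (hS p.1 p.2).2
  have e : (((p.1 : ℕ) : ℤ) - 1) / 3 = ((p.1 / 3 : ℕ) : ℤ) := by omega
  rw [e, Int.cast_natCast]

/-- the element with the additional factor `ω` -/
theorem pB_px (hS : ∀ p ∈ S, p.Prime ∧ p % 3 = 1) :
    pB (px q S) (exx A S) 1 = w * -((q : Ei) * ((∏ p ∈ S, p : ℕ) : Ei) * be S A) := by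
  unfold pB
  rw [pD_px hS]
  have v1 : (1 : ZMod 3).val = 1 := rfl
  rw [v1, pow_one]

/-- **the criterion** -/
theorem kerB_iff (hq : q.Prime) (hq2 : q % 3 = 2) (hS : ∀ p ∈ S, p.Prime ∧ p % 3 = 1) :
    KerB (px q S) (exx A S) 1 ↔
      GdY (fun n => lam n q) hn (nq (-(q : Ei))) (sg A) S := by
  have two : ∀ a b : F3, a + b = 0 → a - b = 0 → a = 0 ∧ b = 0 := by decide
  have hnone : nq (px q S none) = nq (-(q : Ei)) := rfl
  constructor
  · intro hk x y z h1 h2 h3
    -- the vector
    set v : Jx S → F3 := fun i => match i with
      | none => z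
      | some (true, p) => -(x p + y p)
      | some (false, p) => -(x p - y p) with hv
    set xx : ℕ → F3 := fun n => x n + z with hxx
    have three : ∀ a b c : F3, a + c = (-(a + b) - c) + (-(a - b) - c) ∧
        b = -(a + b) - -(a - b) ∧ -(a + b) + -(a - b) = a := by decide
    have hx : ∀ p : {p // p ∈ S}, xx p =
        (v (some (true, p)) - v none) + (v (some (false, p)) - v none) := by
      intro p
      show x p + z = (-(x p + y p) - z) + (-(x p - y p) - z)
      exact (three _ _ _).1
    have hy : ∀ p : {p // p ∈ S}, y p = v (some (true, p)) - v (some (false, p)) := by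
      intro p
      show y p = -(x p + y p) - -(x p - y p)
      exact (three _ _ 0).2.1
    have hs : ∀ p : {p // p ∈ S}, v (some (true, p)) + v (some (false, p)) = x p := by
      intro p
      show -(x p + y p) + -(x p - y p) = x p
      exact (three _ _ 0).2.2
    have f2 : ∀ p : {p // p ∈ S}, Run7.h238.X.EX2 (fun n => lam n q) (sg A) S xx y p =
        hn p * x p := by
      intro p
      have h4 := h2 p p.2
      unfold EX2 at h4
      unfold Run7.h238.X.EX2
      have e : ∑ l ∈ S, sg A l * (lam l p * (xx l - xx p)) =
          ∑ l ∈ S, sg A l * (lam l p * (x l - x p)) := by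
        refine sum_congr rfl fun l _ => ?_
        rw [hxx]
        ring
      rw [e]
      linear_combination h4
    have f1 : ∀ p : {p // p ∈ S}, Run7.h238.X.EX1 (fun n => lam n q) (sg A) S xx y p =
        hn p * y p := by
      intro p
      have h4 := h1 p p.2
      unfold EX1 at h4
      unfold Run7.h238.X.EX1
      simp only [hxx]
      linear_combination h4
    have hTF : ∀ p : {p // p ∈ S},
        (∑ i, exx A S i * cs (px q S (some (true, p))) (px q S i) * (v i - v (some (true, p)))) -
          hn p * v (some (true, p)) = 0 ∧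
        (∑ i, exx A S i * cs (px q S (some (false, p))) (px q S i) *
          (v i - v (some (false, p)))) - hn p * v (some (false, p)) = 0 := by
      intro p
      obtain ⟨e1, e2⟩ := eqA (A := A) hq hq2 hS v xx y hx hy p
      rw [f2, ← hs p] at e1
      rw [f1, hy p] at e2
      refine two _ _ ?_ ?_
      · linear_combination e1
      · linear_combination e2
    have hk' := hk v ?_
    · refine ⟨fun p hp => ?_, hk' none⟩
      have a1 := hk' (some (true, ⟨p, hp⟩))
      have a2 := hk' (some (false, ⟨p, hp⟩))
      have b1 := hs ⟨p, hp⟩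
      have b2 := hy ⟨p, hp⟩
      rw [a1, a2, add_zero] at b1
      rw [a1, a2, sub_zero] at b2
      exact ⟨b1.symm, b2⟩
    · rintro (_ | ⟨b, p⟩)
      · rw [eqN hq hq2 hS v, one_mul, hnone]
        unfold EX3 at h3
        rw [← Finset.sum_coe_sort S] at h3
        have e : ∑ l : {p // p ∈ S}, sg A l * lam l q *
            ((v (some (true, l)) - v none) + (v (some (false, l)) - v none)) =
            ∑ l : {p // p ∈ S}, sg A l * lam l q * (x l + z) :=
          sum_congr rfl fun l _ => by rw [← hx]
        rw [e]
        have hz : v none = z := rfl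
        rw [hz]
        linear_combination h3
      · rw [nq_px hS, one_mul]
        cases b
        · exact sub_eq_zero.1 (hTF p).2
        · exact sub_eq_zero.1 (hTF p).1
  · intro hg v hv
    set x : ℕ → F3 := xt S fun p => v (some (true, p)) + v (some (false, p)) with hxd
    set y : ℕ → F3 := xt S fun p => v (some (true, p)) - v (some (false, p)) with hyd
    set z : F3 := v none with hz
    set xx : ℕ → F3 := fun n => x n + z with hxx
    have three : ∀ a b c : F3, a + b + c = (a - c) + (b - c) := by decide
    have hs : ∀ p : {p // p ∈ S}, x p = v (some (true, p)) + v (some (false, p)) :=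
      fun p => xt_apply _ p
    have hx : ∀ p : {p // p ∈ S}, xx p =
        (v (some (true, p)) - v none) + (v (some (false, p)) - v none) := by
      intro p
      show x p + z = _
      rw [hs p]
      exact three _ _ _
    have hy : ∀ p : {p // p ∈ S}, y p = v (some (true, p)) - v (some (false, p)) :=
      fun p => xt_apply _ p
    have hT : ∀ p : {p // p ∈ S},
        (∑ i, exx A S i * cs (px q S (some (true, p))) (px q S i) * (v i - v (some (true, p)))) =
          hn p * v (some (true, p)) := by
      intro p
      have := hv (some (true, p))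
      rwa [nq_px hS, one_mul] at this
    have hF : ∀ p : {p // p ∈ S},
        (∑ i, exx A S i * cs (px q S (some (false, p))) (px q S i) *
          (v i - v (some (false, p)))) = hn p * v (some (false, p)) := by
      intro p
      have := hv (some (false, p))
      rwa [nq_px hS, one_mul] at this
    obtain ⟨h0, h0'⟩ := hg x y z (fun p hp => by
        obtain ⟨-, e2⟩ := eqA (A := A) hq hq2 hS v xx y hx hy ⟨p, hp⟩
        rw [hT, hF] at e2
        have e3 : hn p * (v (some (true, ⟨p, hp⟩)) - v (some (false, ⟨p, hp⟩))) =
            Run7.h238.X.EX1 (fun n => lam n q) (sg A) S xx y p := by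
          rw [mul_sub]
          exact e2
        rw [← hy ⟨p, hp⟩] at e3
        unfold Run7.h238.X.EX1 at e3
        unfold EX1
        simp only [hxx] at e3
        linear_combination -e3) (fun p hp => by
        obtain ⟨e1, -⟩ := eqA (A := A) hq hq2 hS v xx y hx hy ⟨p, hp⟩
        rw [hT, hF] at e1
        have e3 : hn p * (v (some (true, ⟨p, hp⟩)) + v (some (false, ⟨p, hp⟩))) =
            Run7.h238.X.EX2 (fun n => lam n q) (sg A) S xx y p := by
          rw [mul_add]
          exact e1
        rw [← hs ⟨p, hp⟩] at e3
        unfold Run7.h238.X.EX2 at e3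
        unfold EX2
        have e : ∑ l ∈ S, sg A l * (lam l p * (xx l - xx p)) =
            ∑ l ∈ S, sg A l * (lam l p * (x l - x p)) := by
          refine sum_congr rfl fun l _ => ?_
          rw [hxx]
          ring
        rw [e] at e3
        linear_combination -e3) (by
        have e1 := hv none
        rw [eqN hq hq2 hS v, one_mul, hnone] at e1
        unfold EX3
        rw [← Finset.sum_coe_sort S]
        have e : ∑ l : {p // p ∈ S}, sg A l * lam l q *
            ((v (some (true, l)) - v none) + (v (some (false, l)) - v none)) =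
            ∑ l : {p // p ∈ S}, sg A l * lam l q * (x l + z) :=
          sum_congr rfl fun l _ => by rw [← hx]
        rw [e] at e1
        linear_combination e1)
    rintro (_ | ⟨b, p⟩)
    · exact h0'
    · obtain ⟨z1, z2⟩ := h0 p p.2
      rw [hs] at z1
      rw [hy] at z2
      obtain ⟨w1, w2⟩ := two _ _ z1 z2
      cases b
      · exact w2
      · exact w1

end Run7.h238.Y
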