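import Pool.Agent.Run7.h238.R.TriR
import Pool.Agent.Run7.h238.Y.ECr
import Pool.Agent.Run7.h238.Y.LawY
import Pool.Agent.Run7.h741.CR.B6

/-!
# The proportion and the criterion over `ℚ(ω)` for the curves `y² + q y = x³`, fields ramified at `3`
-/

set_option autoImplicit false
set_option linter.unusedVariables false
set_option linter.unusedSectionVars false

open scoped Classical

namespace Run7.h238.Y

open Finset NumberField Filter Topology
open Pool.Agent.Y692.QS
open Pool.Agent.Y703.CX (lam)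
open Pool.Agent.Y703.CT (Dt pD Ker)
open Pool.Agent.Y703.XK (c9)
open Pool.Agent.N883.FF (nq KerB pB)
open Pool.Agent.Y696.CTK (ED Tri)
open Pool.Agent.TH841.NF.D (Sha)
open Pool.Agent.Run7.h741.CC (dt_star)
open Pool.Agent.Run7.h741.CR (pB_star kerB_star)
open Run7.h238.WFew (wt)
open Run7.h238.C (SP mem_SP)
open Run7.h238.X (F3 Jx sg sg_ne be px exx dt_px nr_be pri_be be_compl TriK ph ph_apply sq_j
  cast_abs low split_empty c9_pos c9_lt)
open Run7.h238.R (hn Tr PM fb nr_four bt coe_bt w_mul w2_star card_good card_all)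

/-- **the proportion** -/
theorem ratio {q : ℕ} (hq : q.Prime) (hq1 : q % 3 = 2) {Gp : ℕ × ℕ → Prop}
    (hT : Tr (fun S A => GdY (fun n => lam n q) hn (nq (-(q : Ei))) (sg A) S) Gp) :
    Tendsto (fun X : ℕ => (((PM X).filter Gp).card : ℝ) / ((PM X).card : ℝ)) atTop (nhds c9) := by
  obtain ⟨c, hc, hlow⟩ := low
  rw [Metric.tendsto_atTop']
  intro ε hε
  have h0 := c9_pos
  have h1 := c9_lt
  have hlaw := lawY hq hq1 (nq (-(q : Ei))) (fun _ => 1) 1 (fun _ => zero_le_one)
    (fun _ => le_rfl) (c * ε / 2) (by positivity)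
  have hev := (hlow.and (hlaw.and (eventually_ge_atTop 1))).exists_forall_of_atTop
  obtain ⟨N, hN⟩ := hev
  refine ⟨N, fun X hX => ?_⟩
  obtain ⟨a1, a2, a4⟩ := hN X hX.le
  have hX0 : (0 : ℝ) < X := by exact_mod_cast a4
  have hg := card_good hT X
  have ha := card_all X
  set G : ℝ := (((PM X).filter Gp).card : ℝ) with hGd
  set T : ℝ := ((PM X).card : ℝ) with hTd
  simp only [one_mul] at a2
  have e2 : ∑ S ∈ SP X, (2 : ℝ) ^ S.card = T := by
    rw [ha]
    rfl
  have e1 : G = ∑ S ∈ SP X, fX (fun n => lam n q) hn (nq (-(q : Ei))) S := hg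
  rw [sum_sub_distrib, ← mul_sum, e2, ← e1] at a2
  rw [← ha] at a1
  have hT0 : 0 < T := by
    have : 0 < c * X := by positivity
    linarith
  rw [Real.dist_eq]
  have e : G / T - c9 = (G - c9 * T) / T := by
    field_simp
  rw [e, abs_div, abs_of_pos hT0, div_lt_iff₀ hT0]
  calc |G - c9 * T| ≤ c * ε / 2 * X := a2
    _ = ε / 2 * (c * X) := by ring
    _ ≤ ε / 2 * T := by gcongr
    _ < ε * T := by nlinarith

variable {q : ℕ} {S A : Finset ℕ}

section
variable {K : Type} [Field K] [NumberField K]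

theorem tri_px (j : Ei ≃+* 𝓞 K) (hq : q.Prime) (hq2 : q % 3 = 2)
    (hS : ∀ p ∈ S, p.Prime ∧ p % 3 = 1) {z : Ei}
    (hz : (z = w * ((q : Ei) * ((∏ p ∈ S, p : ℕ) : Ei) * be S A) ∨
      z = -(w * ((q : Ei) * ((∏ p ∈ S, p : ℕ) : Ei) * be S A))) ∨
      (z = w ^ 2 * ((q : Ei) * ((∏ p ∈ S, p : ℕ) : Ei) * star (be S A)) ∨
      z = -(w ^ 2 * ((q : Ei) * ((∏ p ∈ S, p : ℕ) : Ei) * star (be S A))))) :
    Tri (j z) ↔ GdY (fun n => lam n q) hn (nq (-(q : Ei))) (sg A) S := by
  have hD := dt_px (A := A) hq hq2 hS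
  rw [← kerB_iff hq hq2 hS]
  have e1 := pB_px (q := q) (A := A) hS
  rcases hz with hz | hz
  · rcases hz with h | h
    · have e : z = pB (px q S) (exx A S) 1 * (-1) ^ 3 := by
        rw [h, e1]
        ring
      rw [e]
      exact Run7.h707.TC.tri_B3 j hD (by decide) (by norm_num)
    · have e : z = pB (px q S) (exx A S) 1 * 1 ^ 3 := by
        rw [h, e1]
        ring
      rw [e]
      exact Run7.h707.TC.tri_B3 j hD (by decide) (by norm_num)
  · have hD' := dt_star hD
    have e2 : pB (fun k => star (px q S k)) (exx A S) (-1) =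
        -(w ^ 2 * ((q : Ei) * ((∏ p ∈ S, p : ℕ) : Ei) * star (be S A))) := by
      rw [pB_star, e1, star_mul', star_neg, star_mul', star_mul', star_natCast, star_natCast]
      have h3 : star w = w ^ 2 := by decide
      rw [h3]
      ring
    have e3 : KerB (px q S) (exx A S) 1 ↔ KerB (fun k => star (px q S k)) (exx A S) (-1) := by
      constructor
      · exact kerB_star hD
      · intro h
        have h2 := kerB_star hD' h
        simp only [star_star, neg_neg] at h2
        exact h2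
    rw [e3]
    rcases hz with h | h
    · have e : z = pB (fun k => star (px q S k)) (exx A S) (-1) * (-1) ^ 3 := by
        rw [h, e2]
        ring
      rw [e]
      exact Run7.h707.TC.tri_B3 j hD' (by decide) (by norm_num)
    · have e : z = pB (fun k => star (px q S k)) (exx A S) (-1) * 1 ^ 3 := by
        rw [h, e2]
        ring
      rw [e]
      exact Run7.h707.TC.tri_B3 j hD' (by decide) (by norm_num)

/-- the good pairs -/
def Gy (K : Type) [Field K] [NumberField K] (q : ℕ) (b : ℕ × ℕ) : Prop :=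
  ∀ n : ℕ, 4 * n = b.1 ^ 2 + 3 * b.2 ^ 2 → ∀ s : K, s ^ 2 = -3 →
    TriK ((q : K) * (n : K) * (((b.1 : K) + (b.2 : K) * s) / 2))

theorem tr_Gy [IsCyclotomicExtension {3} ℚ K] (hq : q.Prime) (hq2 : q % 3 = 2) :
    Tr (fun S A => GdY (fun n => lam n q) hn (nq (-(q : Ei))) (sg A) S) (Gy K q) := by
  obtain ⟨⟨j, -⟩, -⟩ := Pool.Agent.Y455.CTK.jex K
  intro S A hS hA
  set n : ℕ := ∏ p ∈ S, p with hnd
  set z : Ei := be S A with hz
  set U : ℤ := -(z.re + z.im) with hU
  set V : ℤ := z.re - z.im with hV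
  have hfb : fb z = (U.natAbs, V.natAbs) := by
    unfold fb
    rw [hU, Int.natAbs_neg]
  have h4 : 4 * (n : ℤ) = U ^ 2 + 3 * V ^ 2 := by
    rw [hnd, ← nr_be (A := A) hS, nr_four, hU, hV]
    ring
  have h4' : 4 * n = U.natAbs ^ 2 + 3 * V.natAbs ^ 2 := by
    have h5 : ((4 * n : ℕ) : ℤ) = ((U.natAbs ^ 2 + 3 * V.natAbs ^ 2 : ℕ) : ℤ) := by
      push_cast
      rw [sq_abs, sq_abs]
      exact h4
    exact_mod_cast h5
  have hpar : (U + V) % 2 = 0 := by omega
  have hpar' : (U + -V) % 2 = 0 := by omega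
  rw [hfb]
  -- the values
  have key : ∀ s : K, s ^ 2 = -3 →
      (TriK ((q : K) * (n : K) * (((U.natAbs : K) + (V.natAbs : K) * s) / 2)) ↔
        GdY (fun n => lam n q) hn (nq (-(q : Ei))) (sg A) S) := by
    intro s hs
    set s₀ : K := ph j (1 + 2 * w) with hs₀
    have hs₀2 : s₀ ^ 2 = -3 := sq_j j
    have hss : s = s₀ ∨ s = -s₀ := by
      have h1 : (s - s₀) * (s + s₀) = 0 := by linear_combination hs - hs₀2
      rcases mul_eq_zero.1 h1 with h | h
      · left; linear_combination h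
      · right; linear_combination h
    have cU := cast_abs (K := K) U
    have cV := cast_abs (K := K) V
    have b1 := coe_bt j hpar
    have b2 := coe_bt j hpar'
    have eV : ((-V : ℤ) : K) = -(V : K) := Int.cast_neg V
    rw [eV] at b2
    rw [← hs₀] at b1 b2
    have c1 : ph j (w * ((q : Ei) * (n : Ei) * be S A)) =
        (q : K) * (n : K) * (((U : K) + (V : K) * s₀) / 2) := by
      have e : w * ((q : Ei) * (n : Ei) * be S A) = (q : Ei) * (n : Ei) * (w * z) := by
        rw [← hz]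
        ring
      rw [e, map_mul, map_mul, map_natCast, map_natCast, w_mul, ← hU, ← hV, b1]
    have c2 : ph j (w ^ 2 * ((q : Ei) * (n : Ei) * star (be S A))) =
        (q : K) * (n : K) * (((U : K) + -(V : K) * s₀) / 2) := by
      have e : w ^ 2 * ((q : Ei) * (n : Ei) * star (be S A)) =
          (q : Ei) * (n : Ei) * (w ^ 2 * star z) := by
        rw [← hz]
        ring
      rw [e, map_mul, map_mul, map_natCast, map_natCast, w2_star, ← hU, ← hV, b2]
    have c3 : ph j (-(w * ((q : Ei) * (n : Ei) * be S A))) =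
        -((q : K) * (n : K) * (((U : K) + (V : K) * s₀) / 2)) := by
      rw [map_neg, ← c1]
    have c4 : ph j (-(w ^ 2 * ((q : Ei) * (n : Ei) * star (be S A)))) =
        -((q : K) * (n : K) * (((U : K) + -(V : K) * s₀) / 2)) := by
      rw [map_neg, ← c2]
    -- the four values
    have main : ∃ (x : Ei), ((x = w * ((q : Ei) * (n : Ei) * be S A) ∨
        x = -(w * ((q : Ei) * (n : Ei) * be S A))) ∨
        (x = w ^ 2 * ((q : Ei) * (n : Ei) * star (be S A)) ∨
        x = -(w ^ 2 * ((q : Ei) * (n : Ei) * star (be S A))))) ∧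
        ph j x = (q : K) * (n : K) * (((U.natAbs : K) + (V.natAbs : K) * s) / 2) := by
      rcases cU with hU | hU <;> rcases cV with hV | hV <;> rcases hss with h | h <;>
        rw [hU, hV, h]
      · exact ⟨_, Or.inl (Or.inl rfl), c1⟩
      · exact ⟨_, Or.inr (Or.inl rfl), by rw [c2]; ring⟩
      · exact ⟨_, Or.inr (Or.inl rfl), by rw [c2]⟩
      · exact ⟨_, Or.inl (Or.inl rfl), by rw [c1]; ring⟩
      · exact ⟨_, Or.inr (Or.inr rfl), by rw [c4]; ring⟩
      · exact ⟨_, Or.inl (Or.inr rfl), by rw [c3]; ring⟩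
      · exact ⟨_, Or.inl (Or.inr rfl), by rw [c3]; ring⟩
      · exact ⟨_, Or.inr (Or.inr rfl), by rw [c4]; ring⟩
    obtain ⟨x, hx, hjx⟩ := main
    rw [← hjx]
    have h6 : TriK (ph j x) ↔ Tri (j x) := Iff.rfl
    rw [h6]
    exact tri_px j hq hq2 hS hx
  constructor
  · intro h
    exact (key _ (sq_j j)).1 (h n h4' _ (sq_j j))
  · intro h m hm s hs
    have hmn : m = n := by
      simp only at hm
      omega
    subst hmn
    exact (key s hs).2 h

end

end Run7.h238.Y
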