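import Pool.Agent.Run7.h238.R.Fin
import Pool.Agent.Run7.h238.Y.TriY

/-!
# The curves `y² + q y = x³` over the cyclic cubic fields in which `3` ramifies
-/

set_option autoImplicit false
set_option linter.unusedVariables false
set_option linter.unusedSectionVars false

open scoped Classical

namespace Run7.h238.Y

open Finset NumberField Filter
open Pool.Agent.Y692.QS
open Pool.Agent.Y703.CX (lam)
open Pool.Agent.Y703.CT (Dt pD Ker)
open Pool.Agent.Y703.XK (c9)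
open Pool.Agent.N883.FF (nq KerB pB)
open Pool.Agent.Run7.h289.RD (IsPair' field_of' pair_of' iso_of')
open Pool.Agent.Y696.CTK (ED)
open Pool.Agent.TH841.NF.D (Sha)
open Pool.Agent.Run7.h741.CC (dt_star)
open Pool.Agent.Run7.h741.CR (pB_star kerB_star)
open Run7.h238.X (F3 Jx sg sg_ne be px exx dt_px nr_be pri_be be_compl TriK exists_be)
open Run7.h238.R (hn Tr PM fb nr_four bt w_mul w2_star card_good card_all exists_pri facts
  pair_n3 Cyr card_fields' tendsto_div9 lserG bad_q3)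

/-- the data of the field of a good pair -/
theorem pair_data (K : Type) [Field K] [NumberField K] [IsCyclotomicExtension {3} ℚ K]
    {q u v n : ℕ} (hq : q.Prime) (hq2 : q % 3 = 2)
    (hn : 4 * n = u ^ 2 + 3 * v ^ 2) (hsq : Squarefree n) (h3n : ¬ 3 ∣ n)
    (h3v : ¬ 3 ∣ v) (hG : Gy K q (u, v)) :
    ∃ (S : Finset ℕ) (π : Jx S → Ei) (e : Jx S → ZMod 3) (i : ZMod 3),
      Dt π e ∧ i ≠ 0 ∧
      (((q : ℕ) : Ei) * (n : ℕ) * Pool.Agent.Run7.h741.CR.bt u v = pB π e i ∨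
        ((q : ℕ) : Ei) * (n : ℕ) * Pool.Agent.Run7.h741.CR.bt u v = -pB π e i) ∧
      KerB π e i := by
  obtain ⟨z, hz3, hzn, hzf⟩ := exists_pri h3n h3v hn
  obtain ⟨hS, hP⟩ := facts hsq hz3 hzn (pair_n3 h3n hn).1
  set S := n.primeFactors with hSd
  obtain ⟨A, hA, hzA⟩ := exists_be hS hz3 (by rw [hP, hzn])
  have hg := (tr_Gy (K := K) hq hq2 S A hS hA).1 (by rw [← hzA, hzf]; exact hG)
  have hk := (kerB_iff hq hq2 hS).2 hg
  have hD := dt_px (A := A) hq hq2 hS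
  have c1 : pB (px q S) (exx A S) 1 = -((q : Ei) * (n : Ei) * (w * z)) := by
    rw [pB_px hS, hP, ← hzA]
    ring
  have c2 : pB (fun k => star (px q S k)) (exx A S) (-1) =
      -((q : Ei) * (n : Ei) * (w ^ 2 * star z)) := by
    rw [pB_star, pB_px hS, hP, ← hzA, star_mul', star_neg, star_mul', star_mul', star_natCast,
      star_natCast]
    have h3 : star w = w ^ 2 := by decide
    rw [h3]
    ring
  have hk2 := kerB_star hD hk
  have hD2 := dt_star hD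
  rw [w_mul] at c1
  rw [w2_star] at c2
  set U : ℤ := -(z.re + z.im) with hU
  set V : ℤ := z.re - z.im with hV
  have h4 : 4 * (n : ℤ) = U ^ 2 + 3 * V ^ 2 := by
    rw [← hzn, nr_four, hU, hV]
    ring
  have hpar : (U + V) % 2 = 0 := by omega
  have hfb : (U.natAbs, V.natAbs) = (u, v) := by
    rw [← hzf]
    unfold fb
    rw [hU, Int.natAbs_neg]
  rw [Prod.mk.injEq] at hfb
  have cU : (u : ℤ) = U ∨ (u : ℤ) = -U := by
    have := hfb.1
    omega
  have cV : (v : ℤ) = V ∨ (v : ℤ) = -V := by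
    have := hfb.2
    omega
  have hbn : ∀ a b : ℤ, (a + b) % 2 = 0 → bt (-a) (-b) = -bt a b := by
    intro a b h
    ext
    · show (-a + -b) / 2 = -((a + b) / 2)
      omega
    · rfl
  have e0 : Pool.Agent.Run7.h741.CR.bt u v = bt u v := rfl
  rw [e0]
  rcases cU with h1 | h1 <;> rcases cV with h2 | h2 <;> rw [h1, h2]
  · exact ⟨S, _, _, 1, hD, by decide, Or.inr (by rw [c1, neg_neg]), hk⟩
  · exact ⟨S, _, _, -1, hD2, by decide, Or.inr (by rw [c2, neg_neg]), hk2⟩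
  · refine ⟨S, _, _, -1, hD2, by decide, Or.inl ?_, hk2⟩
    have h3 : bt (-U) V = -bt U (-V) := by
      have := hbn U (-V) (by omega)
      rwa [neg_neg V] at this
    rw [c2, h3, mul_neg]
  · refine ⟨S, _, _, 1, hD, by decide, Or.inl ?_, hk⟩
    rw [c1, hbn U V hpar, mul_neg]

/-- **The good fields.** -/
theorem overF (K : Type) [Field K] [NumberField K] [IsCyclotomicExtension {3} ℚ K] {q : ℕ}
    (hq : q.Prime) (hq9 : q % 9 = 2 ∨ q % 9 = 5) {u v : ℕ} (hG : Gy K q (u, v))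
    {F : Type} [Field F] [NumberField F] (hd : Module.finrank ℚ F = 3) (hp : IsPair' F u v) :
    Finite (ED ((q : ℕ) : F)).toAffine.Point ∧
    (∀ (k : ℕ) (y : Sha (ED ((q : ℕ) : F))), 3 ^ k • y = 0 → 3 • y = 0) ∧
    ∃ Λ : ℂ → ℂ, AnalyticOnNhd ℂ Λ {s | (1 / 2 : ℝ) < s.re} ∧ Λ 1 ≠ 0 ∧
      ∀ s : ℂ, 3 / 2 < s.re → Λ s = (ED ((q : ℕ) : F)).LSeries s := by
  have hq2 : q % 3 = 2 := by omega
  obtain ⟨hu, hv, h3v, n, hn, hsq, h3n, hdisc, th, hth⟩ := hp
  obtain ⟨S, π, e, i, hD, hi0, hDp, hk⟩ := pair_data K hq hq2 hn hsq h3n h3v hG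
  have h4' : 4 * (n : ℤ) = (u : ℤ) ^ 2 + 3 * (v : ℤ) ^ 2 := by exact_mod_cast hn
  have hth' : th ^ 3 = 3 * (n : F) * th + (n : F) * (((u : ℕ) : ℤ) : F) := by
    rw [hth]
    push_cast
    rfl
  obtain ⟨a1, a2, G, a3, a4, a5⟩ := Pool.Agent.Run7.h741.CR.fieldB (c := q) (Or.inr ⟨hq, hq9⟩)
    h4' hsq h3n (by exact_mod_cast hv.ne') hD hi0 hDp hk th hd hth'
  have hq3 : q ≠ 3 := by rintro rfl; omega
  have hqd : ¬ (q : ℤ) ∣ discr F := by
    rw [hdisc]
    intro h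
    have h1 : (q : ℤ) ∣ 9 * (n : ℤ) := (Nat.prime_iff_prime_int.1 hq).dvd_of_dvd_pow h
    have h2 : q ∣ 9 * n := by exact_mod_cast h1
    rcases (Nat.Prime.dvd_mul hq).1 h2 with h3 | h3
    · have h4 : q ∣ 3 := hq.dvd_of_dvd_pow (show q ∣ 3 ^ 2 by norm_num; exact h3)
      exact hq3 ((Nat.prime_dvd_prime_iff_eq hq Nat.prime_three).1 h4)
    · obtain ⟨z, hz3, hzn, hzf⟩ := exists_pri h3n h3v hn
      obtain ⟨hS, hP⟩ := facts hsq hz3 hzn (pair_n3 h3n hn).1
      have h4 := (hS q (Nat.mem_primeFactors.2 ⟨hq, h3, hsq.ne_zero⟩)).2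
      omega
  exact ⟨a1, a2, lserG (bad_q3 hq hq3 hd hqd) hsq.ne_zero a3 a4 a5⟩

/-- **The proportion.** -/
theorem prop_fields (K : Type) [Field K] [NumberField K] [IsCyclotomicExtension {3} ℚ K] {q : ℕ}
    (hq : q.Prime) (hq2 : q % 3 = 2) {GF : Subfield ℂ → Prop}
    (hG : ∀ (F : Subfield ℂ) (_ : NumberField F), Module.finrank ℚ F = 3 → IsGalois ℚ F →
      ∀ u v : ℕ, IsPair' F u v → (GF F ↔ Gy K q (u, v))) :
    Tendsto (fun X : ℕ => ({F : Subfield ℂ | Cyr X F ∧ GF F}.ncard : ℝ) /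
      ({F : Subfield ℂ | Cyr X F}.ncard : ℝ)) atTop (nhds c9) := by
  refine ((ratio hq hq2 (tr_Gy (K := K) hq hq2)).comp tendsto_div9).congr fun X => ?_
  have e := card_fields' (Gp := fun _ => True) (GF := fun _ => True) X
    (fun _ _ _ _ _ _ _ => Iff.rfl)
  simp only [and_true, filter_true] at e
  rw [e, card_fields' X hG]
  rfl

end Run7.h238.Y
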