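import Pool.Agent.Run7.h238.X.LawX
import Pool.Agent.Run7.h238.R.Bad
import Pool.Agent.Run7.h238.Y.KeyY

/-!
# The sets with degenerate labels are few: the system with one more unknown
-/

set_option autoImplicit false
set_option linter.unusedVariables false

open scoped Classical

namespace Run7.h238.Y

open Finset
open Filter
open Pool.Agent.Y703.CX
open Pool.Agent.Y911.CX (TT mem_TT)
open Pool.Agent.R413.SQ (Sml sml_of sml_add)
open Run7.h238.WFew (wt wt_nonneg wt_mono wt_union wt_card)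
open Run7.h238.WTail (sml_mono)
open Run7.h238.C (SP mem_SP SP_sub_TT L3 t_L3)
open Run7.h238.X (F3 VX not_nx chq chq_ok exC_q LQ mem_LQ sml_LQ sml_smallX)
open Run7.h238.R (Nr hn)
open Pool.Agent.Y37.CX (sub_range)

/-- nondegenerate labels -/
theorem ny_of {q V : ℕ} {S₀ S₁ : Finset ℕ} (hq : q.Prime) (hq1 : q % 3 = 2)
    (hS₀ : ∀ u ∈ S₀, u % 3 = 1) (hN : Nd ({q} ∪ S₀) S₁) (hR : Nr hn S₀ S₁)
    (hf : 4 * S₀.card + 5 + 2 * V ≤ (S₁.filter fun x => lam x q ≠ 0).card) :
    Ny (fun x => lam x q) hn V S₀ S₁ :=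
  ⟨hR.2, (not_nx (V := V) hq hq1 hS₀ hN (by omega)).2.1, hf⟩

/-- **the sets with degenerate labels or few large primes are few** -/
theorem sml_ny (hs : S_SIE) (hL : LamP) (h3 : L3) {q : ℕ} (hq : q.Prime) (hq1 : q % 3 = 2) :
    Sml 0 fun X => wt ((SP X).filter fun S => S.card ≤ kk X ∧
      ¬ Ny (fun x => lam x q) hn (VX X) (sm (zz X) S) (la (zz X) S)) := by
  obtain ⟨hχ, N, hN1, hB⟩ := chq_ok hL hq hq1
  have s1 := sml_smallX
  have s2 := sml_LQ hs hL hχ hN1 hB
  have s3 := Run7.h238.C.bad hs hL h3 {q} (fun t ht => by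
    rw [mem_singleton] at ht
    rw [ht]
    exact hq)
  have s4 := Run7.h238.R.bad hs hL
  refine sml_mono ?_ (sml_add (sml_add (sml_add s1 s2) s3) s4)
  filter_upwards [ev_eL 800] with X h9
  have h11 : ((SP X).filter fun S => S.card ≤ kk X ∧
      ¬ Ny (fun x => lam x q) hn (VX X) (sm (zz X) S) (la (zz X) S)) ⊆
      ((((TT X).filter fun S => eL X / 800 < ((sm (zz X) S).card : ℝ)) ∪
        LQ (chq q) X (zz X) ⌊eL X / 40⌋₊) ∪
      (SP X).filter fun S => S.card ≤ kk X ∧ ¬ Nd ({q} ∪ sm (zz X) S) (la (zz X) S)) ∪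
      (SP X).filter fun S => S.card ≤ kk X ∧ ¬ Nr hn (sm (zz X) S) (la (zz X) S) := by
    intro S hS
    rw [mem_filter] at hS
    obtain ⟨a1, a3⟩ := mem_SP.1 hS.1
    rw [mem_union, mem_union, mem_union, mem_filter, mem_filter, mem_filter]
    by_cases hc : eL X / 800 < ((sm (zz X) S).card : ℝ)
    · exact Or.inl (Or.inl (Or.inl ⟨SP_sub_TT X hS.1, hc⟩))
    by_cases hr : Nr hn (sm (zz X) S) (la (zz X) S)
    · by_cases hd : Nd ({q} ∪ sm (zz X) S) (la (zz X) S)
      · left
        left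
        right
        rw [not_lt] at hc
        rw [mem_LQ]
        refine ⟨sub_range (fun p hp => (a1 p hp).1) a3, a1, a3, ?_⟩
        apply Nat.le_floor
        have h12 : ¬ (4 * (sm (zz X) S).card + 5 + 2 * VX X ≤
            ((la (zz X) S).filter fun x => lam x q ≠ 0).card) := by
          intro hf
          exact hS.2.2 (ny_of hq hq1 (fun u hu => (a1 u (mem_filter.1 hu).1).2) hd hr hf)
        have e : (la (zz X) S).filter (fun p => Run7.h238.C.ExC (chq q) p) =
            (la (zz X) S).filter fun x => lam x q ≠ 0 := by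
          refine filter_congr fun p hp => ?_
          have := a1 p (mem_filter.1 hp).1
          exact exC_q hL h3 hq hq1 this.1 this.2
        rw [e]
        rw [not_le] at h12
        have h13 : (((la (zz X) S).filter fun x => lam x q ≠ 0).card : ℝ) ≤
            4 * ((sm (zz X) S).card : ℝ) + 5 + 2 * (VX X : ℝ) := by
          exact_mod_cast h12.le
        have h14 : (VX X : ℝ) ≤ eL X / 800 := Nat.floor_le (by linarith)
        linarith
      · exact Or.inl (Or.inr ⟨hS.1, hS.2.1, hd⟩)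
    · exact Or.inr ⟨hS.1, hS.2.1, hr⟩
  exact (wt_mono h11).trans ((wt_union _ _).trans (add_le_add ((wt_union _ _).trans
    (add_le_add (wt_union _ _) le_rfl)) le_rfl))

end Run7.h238.Y
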